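import Mathlib

set_option autoImplicit false

namespace Pool.Agent.R489.Etf

def rows1 : List ℕ := [61299584, 56407936, 60418400, 41637472, 48671968, 57489436, 60216348,
  45966355, 57330695, 47429643, 63635930, 48104245, 61637227, 53707446, 41255373, 48264022,
  62940845, 53489497, 55597299, 45096366, 34499278, 34271673, 33935162, 34184917, 34026855,
  33554431]

def rows2 : List ℕ := [685594, 1362997, 2725994, 5443797, 10879403, 21758806, 43517612, 19934552,
  39869104, 12629345, 25250499, 50500998, 33893133, 20746881, 41485571, 15870470, 31740940,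
  63473689, 59846706, 52584549, 38068426, 9036180, 18072360, 36144720, 5188768, 10377536]

/-- sign matrix with zero diagonal from bit rows -/
def cf (rows : List ℕ) (i j : Fin 26) : ℤ :=
  if i = j then 0 else if (rows.getD i.val 0).testBit j.val then 1 else -1

def msk : List ℕ := [41380537, 41347987, 56307502, 60501895, 60635815, 12692020, 57064243,
  45791868, 9611860, 47664857, 48880429, 12700421, 45800269, 63381113, 63348563, 5902090,
  6036010, 10230403, 3367561, 55830350, 55964270, 60158663, 19083817, 48871098, 12691090,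
  45790938, 19051267, 48879499, 5558858, 25368137]

def sgnv (k : Fin 30) (i : Fin 26) : ℤ := if (msk.getD k.val 0).testBit i.val then 1 else -1

theorem sq1 : ∀ i j : Fin 26, (∑ l, cf rows1 i l * cf rows1 l j) = if i = j then 25 else 0 := by
  decide +kernel

theorem sq2 : ∀ i j : Fin 26, (∑ l, cf rows2 i l * cf rows2 l j) = if i = j then 25 else 0 := by
  decide +kernel

theorem symm1 : ∀ i j : Fin 26, cf rows1 i j = cf rows1 j i := by decide +kernel
theorem symm2 : ∀ i j : Fin 26, cf rows2 i j = cf rows2 j i := by decide +kernel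

theorem cut1 : ∀ i j : Fin 26, (∑ k, sgnv k i * sgnv k j) = if i = j then 30 else
    6 * cf rows1 i j := by
  decide +kernel

def bb : List ℤ := [1, 1, -1, -1, 1, -1, 1, -1, -1, -1, -1, -1, -1]
def cc : List ℤ := [4, 0, 0, -8, -4, 0, -4, 12, -8, 4, -8, -4, 4]

/-- coefficients -/
def kk (i k : Fin 13) : ℤ := 5 * bb.getD ((i - k : Fin 13)).val 0 + 1
def ck (d : Fin 13) : ℤ := cc.getD d.val 0

def lft (i : Fin 13) : Fin 26 := ⟨i.val, by omega⟩
def rgt (i : Fin 13) : Fin 26 := ⟨i.val + 13, by omega⟩

theorem lin : ∀ (i : Fin 13) (j : Fin 26),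
    (∑ k : Fin 13, kk i k * (cf rows2 (lft k) j - if lft k = j then 5 else 0)) =
      (if j = rgt i then 60 else 0) - (if h : j.val < 13 then 5 * ck (⟨j.val, h⟩ - i) else 0) := by
  decide +kernel

def bt (m j : ℕ) : ℕ := (m / 2 ^ (j % 13)) % 2

def pw (m i : ℕ) : ℕ := 4 * bt m i + 12 * bt m (i + 7) + 4 * bt m (i + 9) + 4 * bt m (i + 12)

def qw (m i : ℕ) : ℕ := 8 * bt m (i + 3) + 4 * bt m (i + 4) + 4 * bt m (i + 6) + 8 * bt m (i + 8) +
  8 * bt m (i + 10) + 4 * bt m (i + 11)

def okw (m i : ℕ) : Bool := Nat.beq (pw m i) (qw m i) || Nat.beq (pw m i + 12) (qw m i)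

/-- number of sign agreements `u_i = u_{i+2}` -/
def agr (m : ℕ) : ℕ := (List.range 13).foldl (fun s i => s + (if bt m i = bt m (i + 2) then 1 else 0)) 0

def chk (m : ℕ) : Bool := !(okw m 0 && okw m 1 && okw m 2 && okw m 3 && okw m 4 && okw m 5 && okw m 6
  && okw m 7 && okw m 8 && okw m 9 && okw m 10 && okw m 11 && okw m 12) || Nat.ble 7 (agr m)

theorem chk_all : ∀ a : Fin 64, ∀ b : Fin 128, chk (128 * a.val + b.val) = true := by
  decide +kernel

end Pool.Agent.R489.Etf
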