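import Mathlib

set_option autoImplicit false

namespace Pool.Agent.R489.Etf

open Matrix

/-- A real symmetric matrix `X` with `X * X = 2 X` and trace `2 r` is the Gram matrix of a tight
family in dimension `r`. -/
theorem gram_of_proj {N r : ℕ} (X : Matrix (Fin N) (Fin N) ℝ) (hs : X.IsHermitian)
    (h2 : X * X = (2 : ℝ) • X) (htr : X.trace = 2 * r) :
    ∃ v : Fin N → EuclideanSpace ℝ (Fin r), (∀ i j, inner ℝ (v i) (v j) = X i j) ∧
      ∀ a b, ∑ i, v i a * v i b = if a = b then 2 else 0 := by
  classical
  set b := hs.eigenvectorBasis with hb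
  set l := hs.eigenvalues with hl
  have hmul : ∀ j, X *ᵥ ⇑(b j) = l j • ⇑(b j) := fun j => hs.mulVec_eigenvectorBasis j
  have hl02 : ∀ j, l j = 0 ∨ l j = 2 := by
    intro j
    have e1 : (X * X) *ᵥ ⇑(b j) = (l j * l j) • ⇑(b j) := by
      rw [← Matrix.mulVec_mulVec, hmul, Matrix.mulVec_smul, hmul, smul_smul]
    have e2 : (X * X) *ᵥ ⇑(b j) = (2 * l j) • ⇑(b j) := by
      rw [h2, Matrix.smul_mulVec, hmul, smul_smul]
    rw [e1] at e2
    have hne : b j ≠ 0 := by
      intro h0
      have := b.orthonormal.1 j
      rw [h0] at this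
      simp at this
    have hex : ∃ i, (b j) i ≠ 0 := by
      by_contra hcon
      push Not at hcon
      apply hne
      ext i
      simpa using hcon i
    obtain ⟨i, hi⟩ := hex
    have e3 := congrFun e2 i
    simp only [Pi.smul_apply, smul_eq_mul] at e3
    have e4 := mul_right_cancel₀ hi e3
    have e5 : l j * (l j - 2) = 0 := by linarith
    rcases mul_eq_zero.1 e5 with h | h
    · exact Or.inl h
    · exact Or.inr (by linarith)
  have hent : ∀ i j, X i j = ∑ k, l k * (b k i * b k j) := by
    intro i j
    have hδ : ∀ m j, ∑ k, b k m * b k j = if m = j then 1 else 0 := by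
      intro m j
      have h1 := b.sum_inner_mul_inner (EuclideanSpace.single m (1 : ℝ)) (EuclideanSpace.single j 1)
      simp only [EuclideanSpace.inner_single_left, EuclideanSpace.inner_single_right, map_one,
        one_mul, conj_trivial, PiLp.single_apply] at h1
      rw [h1]
      by_cases h : j = m
      · simp [h]
      · simp [h, Ne.symm h]
    have h1 : X i j = ∑ m, X i m * ∑ k, b k m * b k j := by
      simp only [hδ]
      simp
    rw [h1]
    simp only [Finset.mul_sum]
    rw [Finset.sum_comm]
    apply Finset.sum_congr rfl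
    intro k _
    have h3 := congrFun (hmul k) i
    simp only [Matrix.mulVec, dotProduct, Pi.smul_apply, smul_eq_mul] at h3
    calc ∑ m, X i m * (b k m * b k j) = (∑ m, X i m * b k m) * b k j := by
          rw [Finset.sum_mul]
          apply Finset.sum_congr rfl
          intro m _
          ring
      _ = l k * (b k i * b k j) := by rw [h3]; ring
  have hcard : Fintype.card {k // l k = 2} = r := by
    have h1 := hs.trace_eq_sum_eigenvalues
    rw [htr] at h1
    have h3 : ∑ k, l k = ∑ k, (if l k = 2 then (2 : ℝ) else 0) := by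
      apply Finset.sum_congr rfl
      intro k _
      rcases hl02 k with h | h
      · rw [h]; norm_num
      · rw [h]; simp
    have h4 : ∑ k, (if l k = 2 then (2 : ℝ) else 0) = 2 * (Fintype.card {k // l k = 2} : ℝ) := by
      rw [← Finset.sum_filter, Finset.sum_const, Fintype.card_subtype]
      simp [mul_comm]
    have h5 : (2 : ℝ) * r = 2 * (Fintype.card {k // l k = 2} : ℝ) := by
      rw [← h4, ← h3, h1]
      simp [hl]
    have h6 : (r : ℝ) = (Fintype.card {k // l k = 2} : ℝ) := by linarith
    exact_mod_cast h6.symm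
  let e : Fin r ≃ {k // l k = 2} := (Fintype.equivFinOfCardEq hcard).symm
  refine ⟨fun i => WithLp.toLp 2 (fun a => Real.sqrt 2 * b (e a).1 i), ?_, ?_⟩
  · intro i j
    rw [hent i j]
    simp only [PiLp.inner_apply, RCLike.inner_apply, conj_trivial]
    have h1 : ∀ a : Fin r, Real.sqrt 2 * b (e a).1 j * (Real.sqrt 2 * b (e a).1 i) =
        2 * (b (e a).1 i * b (e a).1 j) := by
      intro a
      have := Real.mul_self_sqrt (show (0:ℝ) ≤ 2 by norm_num)
      linear_combination (b (e a).1 i * b (e a).1 j) * this
    rw [Finset.sum_congr rfl (fun a _ => h1 a)]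
    rw [Equiv.sum_comp e (fun k : {k // l k = 2} => 2 * (b k.1 i * b k.1 j))]
    rw [← Finset.sum_subtype (Finset.univ.filter (fun k => l k = 2)) (by simp)
      (fun k => 2 * (b k i * b k j)), Finset.sum_filter]
    apply Finset.sum_congr rfl
    intro k _
    rcases hl02 k with h | h
    · rw [h]; norm_num
    · rw [h]; simp
  · intro a c
    have h1 : ∀ i : Fin N, Real.sqrt 2 * b (e a).1 i * (Real.sqrt 2 * b (e c).1 i) =
        2 * (b (e a).1 i * b (e c).1 i) := by
      intro i
      have := Real.mul_self_sqrt (show (0:ℝ) ≤ 2 by norm_num)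
      linear_combination (b (e a).1 i * b (e c).1 i) * this
    simp only [h1]
    rw [← Finset.mul_sum]
    have h2 := orthonormal_iff_ite.1 b.orthonormal (e a).1 (e c).1
    simp only [PiLp.inner_apply, RCLike.inner_apply, conj_trivial] at h2
    have h3 : ∑ i, b (e a).1 i * b (e c).1 i = ∑ i, b (e c).1 i * b (e a).1 i := by
      apply Finset.sum_congr rfl
      intro i _
      ring
    rw [h3, h2]
    by_cases hac : a = c
    · subst hac; simp
    · have : (e a).1 ≠ (e c).1 := by
        intro h
        exact hac (e.injective (Subtype.ext h))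
      simp [hac, this]

end Pool.Agent.R489.Etf
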