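import Mathlib
import Pool.Agent.R489.Etf.Data

set_option autoImplicit false

namespace Pool.Agent.R489.Etf

theorem bt_eq (u : Fin 13 → ℤ) (hu : ∀ i, u i = 1 ∨ u i = -1) (j : ℕ) :
    u ⟨j % 13, Nat.mod_lt _ (by norm_num)⟩ =
      2 * (bt (Nat.ofBits (fun i : Fin 13 => decide (u i = 1))) j : ℤ) - 1 := by
  have h1 := Nat.testBit_ofBits_lt (fun i : Fin 13 => decide (u i = 1)) (j % 13)
    (Nat.mod_lt _ (by norm_num))
  unfold bt
  rw [← Nat.toNat_testBit, h1]
  rcases hu ⟨j % 13, Nat.mod_lt _ (by norm_num)⟩ with h | h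
  · simp [h]
  · simp [h]

theorem bt_le (m j : ℕ) : bt m j = 0 ∨ bt m j = 1 := by
  unfold bt
  omega

theorem agr_eq (m : ℕ) :
    agr m = ∑ i ∈ Finset.range 13, (if bt m i = bt m (i + 2) then 1 else 0) := by
  simp only [Finset.sum_range_succ, Finset.sum_range_zero]
  rfl

theorem kern_fact (u : Fin 13 → ℤ) (hu : ∀ i, u i = 1 ∨ u i = -1)
    (hw : ∀ i : Fin 13, (∑ d : Fin 13, ck d * u (i + d)) = 12 ∨
      (∑ d : Fin 13, ck d * u (i + d)) = -12) :
    1 ≤ ∑ i : Fin 13, u i * u (i + 2) := by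
  set m := Nat.ofBits (fun i : Fin 13 => decide (u i = 1)) with hm
  have hbt : ∀ (i d : Fin 13), u (i + d) = 2 * (bt m (i.val + d.val) : ℤ) - 1 := by
    intro i d
    rw [hm, ← bt_eq u hu]
    congr 1
  have hbt0 : ∀ (i : Fin 13), u i = 2 * (bt m i.val : ℤ) - 1 := by
    intro i
    have := hbt i 0
    simpa using this
  have hlt : m < 8192 := by
    have := Nat.ofBits_lt_two_pow (fun i : Fin 13 => decide (u i = 1))
    norm_num at this
    exact this
  have hck : ∀ i : Fin 13, (∑ d : Fin 13, ck d * u (i + d)) =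
      2 * ((pw m i.val : ℤ) - qw m i.val) + 12 := by
    intro i
    have e1 : (∑ d : Fin 13, ck d * u (i + d)) =
        ∑ d : Fin 13, (fun d : ℕ => cc.getD d 0 * (2 * (bt m (i.val + d) : ℤ) - 1)) d.val := by
      apply Finset.sum_congr rfl
      intro d _
      rw [hbt]; rfl
    rw [e1, Fin.sum_univ_eq_sum_range
      (fun d : ℕ => cc.getD d 0 * (2 * (bt m (i.val + d) : ℤ) - 1)) 13]
    simp only [Finset.sum_range_succ, Finset.sum_range_zero, cc, List.getD_cons_zero,
      List.getD_cons_succ, pw, qw, add_zero]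
    push_cast
    ring
  have hok : ∀ i : ℕ, i < 13 → okw m i = true := by
    intro i hi
    have h1 := hck ⟨i, hi⟩
    have h2 := hw ⟨i, hi⟩
    rw [h1] at h2
    simp only at h2
    unfold okw
    rw [Bool.or_eq_true, Nat.beq_eq, Nat.beq_eq]
    rcases h2 with h2 | h2
    · left; omega
    · right; omega
  have hc := chk_all ⟨m / 128, by omega⟩ ⟨m % 128, by omega⟩
  simp only [Nat.div_add_mod] at hc
  unfold chk at hc
  rw [hok 0 (by norm_num), hok 1 (by norm_num), hok 2 (by norm_num), hok 3 (by norm_num),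
    hok 4 (by norm_num), hok 5 (by norm_num), hok 6 (by norm_num), hok 7 (by norm_num),
    hok 8 (by norm_num), hok 9 (by norm_num), hok 10 (by norm_num), hok 11 (by norm_num),
    hok 12 (by norm_num)] at hc
  have hc' : 7 ≤ agr m := by
    simpa using hc
  have e2 : ∑ i : Fin 13, u i * u (i + 2) = ∑ i : Fin 13,
      (fun j : ℕ => 2 * ((if bt m j = bt m (j + 2) then 1 else 0 : ℕ) : ℤ) - 1) i.val := by
    apply Finset.sum_congr rfl
    intro i _
    rw [hbt i 2, hbt0 i]
    have e3 : ((2 : Fin 13) : ℕ) = 2 := rfl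
    rw [e3]
    rcases bt_le m i.val with h | h <;> rcases bt_le m (i.val + 2) with h' | h' <;>
      simp [h, h']
  rw [e2, Fin.sum_univ_eq_sum_range
      (fun j : ℕ => 2 * ((if bt m j = bt m (j + 2) then 1 else 0 : ℕ) : ℤ) - 1) 13,
    Finset.sum_sub_distrib, ← Finset.mul_sum, ← Nat.cast_sum, ← agr_eq]
  simp
  omega

/-- sign vectors fixed by `S / 5` have positive correlation -/
theorem kern_main (x : Fin 26 → ℤ) (hx : ∀ i, x i = 1 ∨ x i = -1)
    (hS : ∀ k, ∑ j, (cf rows2 k j - if k = j then 5 else 0) * x j = 0) :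
    1 ≤ ∑ i : Fin 13, x (lft i) * x (lft (i + 2)) := by
  apply kern_fact (fun i => x (lft i)) (fun i => hx _)
  intro i
  have h1 : ∑ k : Fin 13, kk i k * ∑ j, (cf rows2 (lft k) j - if lft k = j then 5 else 0) * x j
      = 0 := by
    apply Finset.sum_eq_zero
    intro k _
    rw [hS]; ring
  simp only [Finset.mul_sum] at h1
  rw [Finset.sum_comm] at h1
  have h2 : ∀ j : Fin 26, ∑ k : Fin 13, kk i k * ((cf rows2 (lft k) j - if lft k = j then 5 else 0)
      * x j) = ((if j = rgt i then 60 else 0) -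
        (if h : j.val < 13 then 5 * ck (⟨j.val, h⟩ - i) else 0)) * x j := by
    intro j
    rw [← lin i j, Finset.sum_mul]
    apply Finset.sum_congr rfl
    intro k _
    ring
  rw [Finset.sum_congr rfl (fun j _ => h2 j)] at h1
  simp only [sub_mul, Finset.sum_sub_distrib, ite_mul, zero_mul, Finset.sum_ite_eq',
    Finset.mem_univ, if_true] at h1
  have h3 : ∑ j : Fin 26, (if h : j.val < 13 then 5 * ck (⟨j.val, h⟩ - i) else 0) * x j =
      5 * ∑ d : Fin 13, ck d * x (lft (i + d)) := by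
    have e1 : (∑ j : Fin 26, (if h : j.val < 13 then 5 * ck (⟨j.val, h⟩ - i) else 0) * x j) =
        ∑ j : Fin (13 + 13), (if h : j.val < 13 then 5 * ck (⟨j.val, h⟩ - i) else 0) * x j := rfl
    rw [e1, Fin.sum_univ_add]
    have e2 : ∀ a : Fin 13, (if h : (Fin.natAdd 13 a : Fin (13 + 13)).val < 13 then
        5 * ck (⟨(Fin.natAdd 13 a : Fin (13 + 13)).val, h⟩ - i) else 0) * x (Fin.natAdd 13 a) = 0 := by
      intro a
      have : ¬ (Fin.natAdd 13 a : Fin (13 + 13)).val < 13 := by
        rw [Fin.val_natAdd]; omega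
      rw [dif_neg this, zero_mul]
    rw [Finset.sum_eq_zero (fun a _ => e2 a), add_zero, Finset.mul_sum]
    rw [← Equiv.sum_comp (Equiv.subRight i) (fun d => 5 * (ck d * x (lft (i + d))))]
    apply Finset.sum_congr rfl
    intro a _
    have e3 : (Fin.castAdd 13 a : Fin (13 + 13)).val < 13 := by
      rw [Fin.val_castAdd]; exact a.2
    rw [dif_pos e3]
    have e4 : i + (Equiv.subRight i) a = a := by
      simp
    show 5 * ck (a - i) * x (lft a) = 5 * (ck ((Equiv.subRight i) a) * x (lft (i + (Equiv.subRight i) a)))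
    rw [e4]
    simp only [Equiv.subRight_apply]
    ring
  rw [h3] at h1
  rcases hx (rgt i) with h | h
  · left
    rw [h] at h1
    linarith
  · right
    rw [h] at h1
    linarith

end Pool.Agent.R489.Etf
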